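import Pool.Agent.W842.KF.Stm

/-!
# Project KF: part PHASE (helper372)
-/

set_option autoImplicit false
set_option linter.all false

namespace Pool.Agent.W372.KF

open Finset
open Pool.Agent.W842.KF

open Classical in
/-- the alive tests at the two colours of a pair -/
theorem alv_add (hSG : S_SG) {o b m j q : ℕ} {V : Type} (hb : 1 ≤ b) (hj : j < m)
    (y : Fin q → V → V → ℕ) (x : ℕ) (v u : V) :
    (alv o b m (j + 1) y x v u).card + (alv o b m (j + 1) y (sg o b m j x) v u).card =
      if inT o b m x then (alv o b m j y x v u).card else 0 := by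
  classical
  by_cases hx : inT o b m x
  · rw [if_pos hx]
    have h1 := (hSG.1 o b m j hb hj x).2.1 hx
    have h2 := (hSG.1 o b m j hb hj x).2.2 hx
    unfold alv
    rw [Finset.card_filter, Finset.card_filter, Finset.card_filter, ← Finset.sum_add_distrib]
    refine Finset.sum_congr rfl fun i _ => ?_
    by_cases hy : inT o b m (y i v u)
    · have h3 := hSG.2 (bk o b x) (bk o b (y i v u)) j
      simp only [hx, h1, hy, h2, true_and]
      convert h3 using 2
    · simp [hy]
  · rw [if_neg hx, sg_out hx]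
    unfold alv
    simp [hx]

theorem alv_card_le {o b m j q : ℕ} {V : Type} (y : Fin q → V → V → ℕ) (x : ℕ) (v u : V) :
    (alv o b m j y x v u).card ≤ q := by
  classical
  unfold alv
  refine (Finset.card_filter_le _ _).trans ?_
  simp

theorem nb_mono {V : Type} [Fintype V] {G H : SimpleGraph V} (h : G ≤ H) (v : V) :
    nb G v ⊆ nb H v := by
  intro u hu
  rw [mem_nb] at hu ⊢
  exact h hu

/-- the claim of the induction -/
theorem main (hL : S_LEVEL) (hSG : S_SG) (V : Type) [Fintype V] (Γ : SimpleGraph V)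
    (c : V → V → ℕ) (K q o b m : ℕ) (y : Fin q → V → V → ℕ)
    (hK : 64 ≤ K) (hq : 1 ≤ q) (hb : 1 ≤ b) (hobm : o + 2 ^ m * b ≤ K) (hc : Col Γ c)
    (hd : ∀ v, (nb Γ v).card ≤ K) (hcK : ∀ u v, Γ.Adj u v → c u v < K) (g : ℕ → ℝ)
    (hg0 : g 0 = √((q : ℝ) * K))
    (hg : ∀ j, g (j + 1) = g j / √2 + √((q : ℝ) * (5 * Real.log K) / 2)) :
    (∀ j, 0 < g j) ∧ ∀ j, j ≤ m →
    ∃ (R : SimpleGraph V) (c' : V → V → ℕ), R ≤ Γ ∧ (∀ v, (nb R v).card ≤ 15 * j) ∧
      Col (Γ \ R) c' ∧ (∀ u v, (Γ \ R).Adj u v → c' u v < K) ∧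
      (∀ u v, (Γ \ R).Adj u v → ¬ inT o b m (c u v) → c' u v = c u v) ∧
      (∀ u v, (Γ \ R).Adj u v → inT o b m (c u v) → inT o b m (c' u v)) ∧
      ∀ v, ∑ u ∈ nb (Γ \ R) v, ((alv o b m j y (c' v u) v u).card : ℝ) ≤ (g j) ^ 2 := by
  classical
  have hqR : (1 : ℝ) ≤ (q : ℝ) := by exact_mod_cast hq
  have hKR : (64 : ℝ) ≤ (K : ℝ) := by exact_mod_cast hK
  have hlog : 0 < Real.log K := Real.log_pos (by linarith)
  have hgpos : ∀ j, 0 < g j := by
    intro j
    induction j with
    | zero =>
      rw [hg0]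
      exact Real.sqrt_pos.2 (by positivity)
    | succ j ih =>
      rw [hg j]
      have : (0 : ℝ) < √2 := Real.sqrt_pos.2 (by norm_num)
      have h2 : (0 : ℝ) ≤ √((q : ℝ) * (5 * Real.log K) / 2) := Real.sqrt_nonneg _
      have h3 : 0 < g j / √2 := div_pos ih this
      linarith
  refine ⟨hgpos, ?_⟩
  intro j
  induction j with
  | zero =>
    intro _
    refine ⟨⊥, c, bot_le, ?_, ?_, ?_, ?_, ?_, ?_⟩
    · intro v
      have : nb (⊥ : SimpleGraph V) v = ∅ := by
        ext u
        rw [mem_nb]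
        simp
      rw [this]
      simp
    · rwa [sdiff_bot]
    · rw [sdiff_bot]
      exact hcK
    · intro u v _ _
      rfl
    · intro u v _ h
      exact h
    · intro v
      rw [sdiff_bot, hg0, Real.sq_sqrt (by positivity)]
      calc ∑ u ∈ nb Γ v, ((alv o b m 0 y (c v u) v u).card : ℝ)
          ≤ ∑ u ∈ nb Γ v, (q : ℝ) := by
            refine Finset.sum_le_sum fun u _ => ?_
            exact_mod_cast alv_card_le y (c v u) v u
        _ = (nb Γ v).card * (q : ℝ) := by rw [Finset.sum_const, nsmul_eq_mul]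
        _ ≤ (K : ℝ) * q := by
            have : ((nb Γ v).card : ℝ) ≤ (K : ℝ) := by exact_mod_cast hd v
            exact mul_le_mul_of_nonneg_right this (by positivity)
        _ = q * K := mul_comm _ _
  | succ j ih =>
    intro hj
    obtain ⟨R, c1, hR, hRd, hcol, hc1K, hun, hin, hsum⟩ := ih (by omega)
    have hjm : j < m := by omega
    have hinv : ∀ x, sg o b m j (sg o b m j x) = x := fun x => (hSG.1 o b m j hb hjm x).1
    have hsin : ∀ x, inT o b m x → inT o b m (sg o b m j x) :=
      fun x => (hSG.1 o b m j hb hjm x).2.1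
    have hφ : 0 < (g j) ^ 2 := pow_pos (hgpos j) 2
    have hsub : Γ \ R ≤ Γ := sdiff_le
    obtain ⟨M, bb, hM, hMd, hcol2, hsum2⟩ := hL V (Γ \ R) c1 (sg o b m j) K q ((g j) ^ 2)
      (fun v u β => (alv o b m (j + 1) y (if β then sg o b m j (c1 v u) else c1 v u) v u).card)
      hK hcol hinv (fun v => (Finset.card_le_card (nb_mono hsub v)).trans (hd v)) hc1K hφ
      (by
        intro v u
        have h := alv_add hSG (o := o) hb hjm y (c1 v u) v u
        simp only [if_true, Bool.false_eq_true, if_false]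
        rw [h]
        split_ifs
        · exact alv_card_le y _ v u
        · exact Nat.zero_le _)
      (by
        intro v
        refine le_trans (Finset.sum_le_sum fun u _ => ?_) (hsum v)
        have h := alv_add hSG (o := o) hb hjm y (c1 v u) v u
        simp only [if_true, Bool.false_eq_true, if_false]
        have h2 : (alv o b m (j + 1) y (c1 v u) v u).card +
            (alv o b m (j + 1) y (sg o b m j (c1 v u)) v u).card ≤
            (alv o b m j y (c1 v u) v u).card := by
          rw [h]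
          split_ifs
          · exact le_refl _
          · exact Nat.zero_le _
        exact_mod_cast h2)
    have hMΓ : M ≤ Γ := hM.trans hsub
    have hsd : (Γ \ R) \ M = Γ \ (R ⊔ M) := sdiff_sdiff_left
    rw [hsd] at hcol2 hsum2
    have hadj : ∀ u v, (Γ \ (R ⊔ M)).Adj u v → (Γ \ R).Adj u v := by
      intro u v h
      have : Γ \ (R ⊔ M) ≤ Γ \ R := by
        rw [← hsd]
        exact sdiff_le
      exact this h
    refine ⟨R ⊔ M, fun u v => if bb u v then sg o b m j (c1 u v) else c1 u v,
      sup_le hR hMΓ, ?_, hcol2, ?_, ?_, ?_, ?_⟩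
    · intro v
      have : nb (R ⊔ M) v ⊆ nb R v ∪ nb M v := by
        intro u hu
        rw [mem_nb] at hu
        rw [Finset.mem_union, mem_nb, mem_nb]
        exact hu
      calc (nb (R ⊔ M) v).card ≤ (nb R v ∪ nb M v).card := Finset.card_le_card this
        _ ≤ (nb R v).card + (nb M v).card := Finset.card_union_le _ _
        _ ≤ 15 * j + 15 := add_le_add (hRd v) (hMd v)
        _ = 15 * (j + 1) := by ring
    · intro u v h
      have h1 := hc1K u v (hadj u v h)
      show (if bb u v then sg o b m j (c1 u v) else c1 u v) < K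
      split_ifs
      · by_cases hx : inT o b m (c1 u v)
        · exact lt_of_lt_of_le (hsin _ hx).2 hobm
        · rw [sg_out hx]
          exact h1
      · exact h1
    · intro u v h hx
      have h1 := hun u v (hadj u v h) hx
      show (if bb u v then sg o b m j (c1 u v) else c1 u v) = c u v
      rw [h1, sg_out hx]
      simp
    · intro u v h hx
      have h1 := hin u v (hadj u v h) hx
      show inT o b m (if bb u v then sg o b m j (c1 u v) else c1 u v)
      split_ifs
      · exact hsin _ h1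
      · exact h1
    · intro v
      refine (hsum2 v).trans ?_
      rw [hg j]
      have hg1 := (hgpos j).le
      have h2 : (0 : ℝ) ≤ (q : ℝ) * (5 * Real.log K) := by positivity
      have e1 : √((q : ℝ) * (g j) ^ 2 * (5 * Real.log K)) = g j * √((q : ℝ) * (5 * Real.log K)) := by
        rw [show (q : ℝ) * (g j) ^ 2 * (5 * Real.log K) =
          (g j) ^ 2 * ((q : ℝ) * (5 * Real.log K)) by ring, Real.sqrt_mul (sq_nonneg _),
          Real.sqrt_sq hg1]
      have e2 : √((q : ℝ) * (5 * Real.log K) / 2) = √((q : ℝ) * (5 * Real.log K)) / √2 :=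
        Real.sqrt_div h2 _
      have h3 : (√2 : ℝ) ^ 2 = 2 := Real.sq_sqrt (by norm_num)
      have h4 : (0 : ℝ) < √2 := Real.sqrt_pos.2 (by norm_num)
      have h5 : (0 : ℝ) ≤ √((q : ℝ) * (5 * Real.log K)) := Real.sqrt_nonneg _
      rw [e1, e2, ← add_div, div_pow, h3]
      have h6 : 0 ≤ g j * √((q : ℝ) * (5 * Real.log K)) := mul_nonneg hg1 h5
      nlinarith [sq_nonneg (√((q : ℝ) * (5 * Real.log K)))]

theorem t_phase : S_LEVEL → S_SG → S_REC → S_PHASE := by
  intro hL hSG hREC V _ Γ c K q o b m y hK hq hb hobm hc hd hcK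
  have hqR : (1 : ℝ) ≤ (q : ℝ) := by exact_mod_cast hq
  have hKR : (64 : ℝ) ≤ (K : ℝ) := by exact_mod_cast hK
  have hlog : 0 < Real.log K := Real.log_pos (by linarith)
  let t : ℝ := √((q : ℝ) * (5 * Real.log K) / 2)
  let g : ℕ → ℝ := fun j => Nat.rec (√((q : ℝ) * K)) (fun _ x => x / √2 + t) j
  have hg0 : g 0 = √((q : ℝ) * K) := rfl
  have hg : ∀ j, g (j + 1) = g j / √2 + t := fun j => rfl
  obtain ⟨_, h⟩ := main hL hSG V Γ c K q o b m y hK hq hb hobm hc hd hcK g hg0 hg
  obtain ⟨R, c', h1, h2, h3, h4, h5, h6, h7⟩ := h m le_rfl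
  refine ⟨R, c', h1, h2, h3, h4, h5, h6, fun v => (h7 v).trans ?_⟩
  have h8 := (hREC ((q : ℝ) * K) t g (by positivity) (Real.sqrt_nonneg _) hg0 hg m).2
  have h9 : t ^ 2 = (q : ℝ) * (5 * Real.log K) / 2 := Real.sq_sqrt (by positivity)
  rw [h9] at h8
  linarith

end Pool.Agent.W372.KF
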